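import Pool.Agent.H336Sel.Order

set_option autoImplicit false

/-!
# Members of every real degree `d ≥ 2` in the (enlarged) extended Selberg class

Negative answer to Q1 of MP_bac04d_nt: for EVERY real `d ≥ 2` the set `𝒜^#_d` is non-empty.
The functions constructed are entire, have real coefficients, converge absolutely for `Re s > 1`,
satisfy a functional equation with the single gamma factor `Γ(d s / 2)` and have finite order, so
they lie in the extended Selberg class `𝒮^#` as well.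

Idea: put `k = d / 2`. A Dirichlet series `∑ a_n n^{-s}` with the functional equation of `Γ(k s)` is
the same thing as a theta series `Ψ(t) = ∑ a_n exp (-κ n^{1/k} t)` with
`Ψ(1/t) = ± t^k Ψ(t)`. For `k ≥ 1` the frequencies `κ n^{1/k}` are (for small `κ`) so dense that the
self-dual functions `e^{-ut} + u^{-k} e^{-t/u}` satisfy a sampling inequality
(energy identity `∫ x^k f'^2 = ∫ x^k f^2` plus an elementary Poincare inequality on the gaps), even
after one node is dropped; the value at the dropped node is therefore a bounded functional of the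
other values, and the Riesz representation theorem gives the coefficients.
-/

namespace Pool.Agent.Results.MP_bac04d_nt.AllDegrees

open Complex H336Sel
open scoped ComplexConjugate

/-- The gamma factor `G(s) = ∏_j Γ(λ_j s + μ_j) · ∏_j Γ(λ'_j s + μ'_j)⁻¹`. -/
noncomputable def gammaFactor {r r' : ℕ} (lam : Fin r → ℝ) (mu : Fin r → ℂ)
    (lam' : Fin r' → ℝ) (mu' : Fin r' → ℂ) (s : ℂ) : ℂ :=
  (∏ j, Complex.Gamma ((lam j : ℂ) * s + mu j)) * ∏ j, (Complex.Gamma ((lam' j : ℂ) * s + mu' j))⁻¹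

/-- None of the factors `Γ(λ_j s + μ_j)` has a pole at `s`. -/
def NoPole {r : ℕ} (lam : Fin r → ℝ) (mu : Fin r → ℂ) (s : ℂ) : Prop :=
  ∀ j, ∀ n : ℕ, (lam j : ℂ) * s + mu j ≠ -(n : ℂ)

/-- The functional equation (P3) with given data: `Φ(s) = Q^s G(s) F(s)` satisfies
`Φ(s) = ω conj (Φ(1 - conj s))`, as an identity of meromorphic functions, i.e. at all `s` such that
`F` is analytic at `s` and `1 - conj s` and the gamma factors have no pole there. -/
def FunctionalEquation (F : ℂ → ℂ) (Q : ℝ) (ω : ℂ) {r r' : ℕ} (lam : Fin r → ℝ) (mu : Fin r → ℂ)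
    (lam' : Fin r' → ℝ) (mu' : Fin r' → ℂ) : Prop :=
  ∀ s : ℂ, AnalyticAt ℂ F s → AnalyticAt ℂ F (1 - conj s) →
    NoPole lam mu s → NoPole lam mu (1 - conj s) →
    (Q : ℂ) ^ s * gammaFactor lam mu lam' mu' s * F s =
      ω * conj ((Q : ℂ) ^ (1 - conj s) * gammaFactor lam mu lam' mu' (1 - conj s) * F (1 - conj s))

/-- `F ∈ 𝒜^#` and `d_F = d`. -/
structure MemASharp (F : ℂ → ℂ) (d : ℝ) : Prop where
  meromorphic : ∀ z, MeromorphicAt F z
  nonzero : ∃ z, AnalyticAt ℂ F z ∧ F z ≠ 0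
  P1 : ∃ (a : ℕ → ℂ) (σ₀ : ℝ), ∀ s : ℂ, σ₀ < s.re → LSeriesSummable a s ∧ F s = LSeries a s
  P2 : ∃ P : Polynomial ℂ, P ≠ 0 ∧ ∃ H : ℂ → ℂ, Differentiable ℂ H ∧
    (∀ s, AnalyticAt ℂ F s → H s = P.eval s * F s) ∧
    ∀ σ₁ σ₂ : ℝ, ∃ C M : ℝ, ∀ s : ℂ, σ₁ ≤ s.re → s.re ≤ σ₂ → ‖H s‖ ≤ C * (1 + |s.im|) ^ M
  P3 : ∃ (Q : ℝ) (ω : ℂ) (r r' : ℕ) (lam : Fin r → ℝ) (mu : Fin r → ℂ)
    (lam' : Fin r' → ℝ) (mu' : Fin r' → ℂ),
    0 < Q ∧ ‖ω‖ = 1 ∧ (∀ j, 0 < lam j) ∧ (∀ j, 0 < lam' j) ∧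
    d = 2 * ∑ j, lam j - 2 * ∑ j, lam' j ∧ FunctionalEquation F Q ω lam mu lam' mu'

/-- `F` lies in the extended Selberg class `𝒮^#` and `d_F = d`: absolutely convergent Dirichlet
series for `Re s > 1`, not identically zero; `(s-1)^m F(s)` entire of finite order; functional
equation with gamma factors `Γ(λ_j s + μ_j)`, `λ_j > 0`, `Re μ_j ≥ 0`, `2 ∑ λ_j = d`. -/
structure MemSSharp (F : ℂ → ℂ) (d : ℝ) : Prop where
  nonzero : ∃ z, AnalyticAt ℂ F z ∧ F z ≠ 0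
  series : ∃ a : ℕ → ℂ, ∀ s : ℂ, 1 < s.re → LSeriesSummable a s ∧ F s = LSeries a s
  continuation : ∃ (m : ℕ) (H : ℂ → ℂ), Differentiable ℂ H ∧
    (∀ s, s ≠ 1 → AnalyticAt ℂ F s ∧ H s = (s - 1) ^ m * F s) ∧
    ∃ C ρ : ℝ, ∀ s, ‖H s‖ ≤ Real.exp (C * (1 + ‖s‖) ^ ρ)
  feq : ∃ (Q : ℝ) (ω : ℂ) (r : ℕ) (lam : Fin r → ℝ) (mu : Fin r → ℂ),
    0 < Q ∧ ‖ω‖ = 1 ∧ (∀ j, 0 < lam j) ∧ (∀ j, 0 ≤ (mu j).re) ∧
    d = 2 * ∑ j, lam j ∧ FunctionalEquation F Q ω lam mu (r' := 0) Fin.elim0 Fin.elim0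

section construction

variable {k : ℝ} (D : Data k)

/-- The function of the variable `s`. -/
noncomputable def Fs (s : ℂ) : ℂ := Complex.exp (-((k * Real.log 10 : ℝ) : ℂ) * s) * D.E (k * s)

lemma diff_Fs (hk : 0 < k) : Differentiable ℂ (Fs D) := by
  unfold Fs
  have := D.differentiable_E hk
  fun_prop

lemma term_eq (hk : 0 < k) (s : ℂ) (n : ℕ) :
    Complex.exp (-((k * Real.log 10 : ℝ) : ℂ) * s) * ((D.a n : ℂ) / ((frq k n : ℝ) : ℂ) ^ ((k:ℂ) * s)) =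
      LSeries.term (fun n => (D.a n : ℂ)) s n := by
  rcases eq_or_ne n 0 with rfl | hn
  · simp [D.a0]
  · rw [LSeries.term_of_ne_zero hn]
    have hn0 : (0:ℝ) < n := by exact_mod_cast Nat.pos_of_ne_zero hn
    have hnc : (n:ℂ) ≠ 0 := by exact_mod_cast hn
    have hfc : ((frq k n : ℝ) : ℂ) ≠ 0 := by exact_mod_cast (frq_pos hn).ne'
    rw [Complex.cpow_def_of_ne_zero hfc, Complex.cpow_def_of_ne_zero hnc, ← Complex.ofReal_log (frq_pos hn).le]
    have hl : Real.log (frq k n) = -Real.log 10 + 1 / k * Real.log n := by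
      unfold frq
      rw [Real.log_mul (by norm_num) (by positivity), Real.log_rpow hn0]
      congr 1
      rw [one_div, Real.log_inv]
    have hn2 : Complex.log (n:ℂ) = (Real.log n : ℝ) := by
      rw [Complex.ofReal_log hn0.le]; simp
    rw [hl, hn2]
    have hdiv : ∀ x y : ℂ, x / Complex.exp y = x * Complex.exp (-y) := fun x y => by
      rw [Complex.exp_neg, div_eq_mul_inv]
    rw [hdiv, hdiv]
    have hkc : (k:ℂ) ≠ 0 := by exact_mod_cast hk.ne'
    have e : Complex.exp (-((k * Real.log 10 : ℝ) : ℂ) * s) *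
        Complex.exp (-(((-Real.log 10 + 1 / k * Real.log n : ℝ) : ℂ) * ((k:ℂ) * s))) =
        Complex.exp (-(((Real.log n : ℝ) : ℂ) * s)) := by
      rw [← Complex.exp_add]
      congr 1
      push_cast
      field_simp
      ring
    calc _ = (D.a n : ℂ) * (Complex.exp (-((k * Real.log 10 : ℝ) : ℂ) * s) *
        Complex.exp (-(((-Real.log 10 + 1 / k * Real.log n : ℝ) : ℂ) * ((k:ℂ) * s)))) := by ring
      _ = _ := by rw [e]

lemma re_mul (s : ℂ) : ((k:ℂ) * s).re = k * s.re := by simp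

lemma series_Fs (hk : 0 < k) {s : ℂ} (hs : 1 < s.re) :
    LSeriesSummable (fun n => (D.a n : ℂ)) s ∧ Fs D s = LSeries (fun n => (D.a n : ℂ)) s := by
  have h := (D.E_sum hk (z := k * s) (by rw [re_mul]; nlinarith)).mul_left
    (Complex.exp (-((k * Real.log 10 : ℝ) : ℂ) * s))
  simp_rw [term_eq D hk s] at h
  exact ⟨h.summable, h.tsum_eq.symm⟩

lemma nonzero_Fs (hk : 0 < k) : ∃ z, Fs D z ≠ 0 := by
  have h1 : LSeries.abscissaOfAbsConv (fun n => (D.a n : ℂ)) < ⊤ := by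
    have := (series_Fs D hk (s := 2) (by simp)).1.abscissaOfAbsConv_le
    exact lt_of_le_of_lt this (EReal.coe_lt_top _)
  have h2 := LSeries.tendsto_atTop h1
  have h3 : (D.a 1 : ℂ) = -1 := by simp [D.a1]
  simp only [h3] at h2
  by_contra hcon
  push Not at hcon
  have h4 : Filter.Tendsto (fun x : ℝ => LSeries (fun n => (D.a n : ℂ)) x) Filter.atTop (nhds 0) := by
    refine tendsto_const_nhds.congr' ?_
    filter_upwards [Filter.eventually_gt_atTop 1] with x hx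
    rw [← (series_Fs D hk (s := x) (by simpa using hx)).2, hcon]
  have := tendsto_nhds_unique h2 h4
  norm_num at this

lemma cpow_Q (k : ℝ) (s : ℂ) : (((10:ℝ) ^ k : ℝ) : ℂ) ^ s * Complex.exp (-((k * Real.log 10 : ℝ) : ℂ) * s) = 1 := by
  have hpos : 0 < (10:ℝ) ^ k := by positivity
  have hne : (((10:ℝ) ^ k : ℝ) : ℂ) ≠ 0 := by exact_mod_cast hpos.ne'
  rw [Complex.cpow_def_of_ne_zero hne, ← Complex.ofReal_log hpos.le, Real.log_rpow (by norm_num),
    ← Complex.exp_add]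
  have : ((k * Real.log 10 : ℝ) : ℂ) * s + -((k * Real.log 10 : ℝ) : ℂ) * s = 0 := by ring
  rw [this, Complex.exp_zero]

lemma Phi_eq {s : ℂ} (h : NoPole (r := 1) (fun _ => k) (fun _ => 0) s) :
    ((((10:ℝ) ^ k : ℝ)) : ℂ) ^ s * gammaFactor (r := 1) (r' := 0) (fun _ => k) (fun _ => 0) Fin.elim0 Fin.elim0 s
      * Fs D s = D.Λ (k * s) := by
  have h1 : Complex.Gamma ((k:ℂ) * s) ≠ 0 := by
    apply Complex.Gamma_ne_zero
    intro m
    have := h 0 m
    simpa using this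
  unfold gammaFactor Fs Data.E
  simp only [Finset.univ_unique, Finset.prod_singleton, Finset.univ_eq_empty, Finset.prod_empty, mul_one,
    add_zero]
  calc _ = ((((10:ℝ) ^ k : ℝ)) : ℂ) ^ s * Complex.exp (-((k * Real.log 10 : ℝ) : ℂ) * s) *
      (Complex.Gamma (k * s) * (Complex.Gamma (k * s))⁻¹) * D.Λ (k * s) := by ring
    _ = _ := by rw [cpow_Q, mul_inv_cancel₀ h1]; ring

lemma feq_Fs (hk : 0 < k) :
    FunctionalEquation (Fs D) ((10:ℝ) ^ k) (-1) (r := 1) (r' := 0) (fun _ => k) (fun _ => 0) Fin.elim0 Fin.elim0 := by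
  intro s _ _ h1 h2
  rw [Phi_eq D h1, Phi_eq D h2]
  have h3 : conj (D.Λ ((k:ℂ) * (1 - conj s))) = D.Λ (k - k * s) := by
    rw [← D.Λ_conj]
    congr 1
    simp
    ring
  rw [h3, D.Λ_feq hk]
  ring

lemma strip_Fs (hk : 0 < k) (σ₁ σ₂ : ℝ) :
    ∃ C M : ℝ, ∀ s : ℂ, σ₁ ≤ s.re → s.re ≤ σ₂ → ‖Fs D s‖ ≤ C * (1 + |s.im|) ^ M := by
  obtain ⟨C, M, h⟩ := D.E_strip hk (k * σ₁) (k * σ₂)
  have hlog : 0 ≤ Real.log 10 := Real.log_nonneg (by norm_num)
  refine ⟨Real.exp (-(k * Real.log 10 * σ₁)) * (|C| * (1 + k) ^ |M|), |M|, fun s h1 h2 => ?_⟩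
  unfold Fs
  rw [norm_mul, Complex.norm_exp]
  have hre : (-((k * Real.log 10 : ℝ) : ℂ) * s).re = -(k * Real.log 10 * s.re) := by
    rw [← Complex.ofReal_neg, Complex.re_ofReal_mul]; ring
  rw [hre]
  have e1 : Real.exp (-(k * Real.log 10 * s.re)) ≤ Real.exp (-(k * Real.log 10 * σ₁)) := by
    apply Real.exp_le_exp.2
    have : k * Real.log 10 * σ₁ ≤ k * Real.log 10 * s.re := by gcongr
    linarith
  have e2 := h (k * s) (by rw [re_mul]; gcongr) (by rw [re_mul]; gcongr)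
  have him : ((k:ℂ) * s).im = k * s.im := by simp
  rw [him, abs_mul, abs_of_pos hk] at e2
  have hb : 1 ≤ 1 + k * |s.im| := by
    have := mul_nonneg hk.le (abs_nonneg s.im)
    linarith
  have e3 : C * (1 + k * |s.im|) ^ M ≤ |C| * ((1 + k) ^ |M| * (1 + |s.im|) ^ |M|) := by
    have a1 : (1 + k * |s.im|) ^ M ≤ (1 + k * |s.im|) ^ |M| :=
      Real.rpow_le_rpow_of_exponent_le hb (le_abs_self _)
    have a2 : (1 + k * |s.im|) ^ |M| ≤ ((1 + k) * (1 + |s.im|)) ^ |M| := by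
      apply Real.rpow_le_rpow (by linarith) _ (abs_nonneg _)
      nlinarith [abs_nonneg s.im]
    rw [Real.mul_rpow (by positivity) (by positivity)] at a2
    have a3 : 0 ≤ (1 + k * |s.im|) ^ M := Real.rpow_nonneg (by linarith) _
    exact mul_le_mul (le_abs_self _) (a1.trans a2) a3 (abs_nonneg _)
  calc Real.exp (-(k * Real.log 10 * s.re)) * ‖D.E (k * s)‖
      ≤ Real.exp (-(k * Real.log 10 * σ₁)) * (|C| * ((1 + k) ^ |M| * (1 + |s.im|) ^ |M|)) :=
        mul_le_mul e1 (e2.trans e3) (norm_nonneg _) (Real.exp_pos _).le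
    _ = _ := by ring

lemma order_Fs (hk : 0 < k) : ∃ C ρ : ℝ, ∀ s, ‖Fs D s‖ ≤ Real.exp (C * (1 + ‖s‖) ^ ρ) := by
  obtain ⟨C, hC, h⟩ := D.E_order hk
  have hlog : 0 ≤ Real.log 10 := Real.log_nonneg (by norm_num)
  refine ⟨k * Real.log 10 + C * (1 + k) ^ 2, 2, fun s => ?_⟩
  unfold Fs
  rw [norm_mul, Complex.norm_exp]
  have hre : (-((k * Real.log 10 : ℝ) : ℂ) * s).re = -(k * Real.log 10 * s.re) := by
    rw [← Complex.ofReal_neg, Complex.re_ofReal_mul]; ring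
  rw [hre]
  have hn := norm_nonneg s
  have h1 : -s.re ≤ ‖s‖ := (neg_le_abs _).trans (Complex.abs_re_le_norm s)
  have h2 : ‖s‖ ≤ (1 + ‖s‖) ^ 2 := by nlinarith
  have h3 : ‖(k:ℂ) * s‖ = k * ‖s‖ := by
    rw [norm_mul, Complex.norm_real, Real.norm_of_nonneg hk.le]
  have h4 := h (k * s)
  rw [h3] at h4
  have h5 : (1 + k * ‖s‖) ^ 2 ≤ (1 + k) ^ 2 * (1 + ‖s‖) ^ 2 := by
    rw [← mul_pow]
    apply pow_le_pow_left₀ (by positivity)
    nlinarith
  calc Real.exp (-(k * Real.log 10 * s.re)) * ‖D.E (k * s)‖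
      ≤ Real.exp (-(k * Real.log 10 * s.re)) * Real.exp (C * (1 + k * ‖s‖) ^ 2) := by gcongr
    _ = Real.exp (-(k * Real.log 10 * s.re) + C * (1 + k * ‖s‖) ^ 2) := by rw [Real.exp_add]
    _ ≤ _ := by
      apply Real.exp_le_exp.2
      rw [Real.rpow_two]
      have a1 : -(k * Real.log 10 * s.re) ≤ k * Real.log 10 * (1 + ‖s‖) ^ 2 := by
        have : k * Real.log 10 * (-s.re) ≤ k * Real.log 10 * (1 + ‖s‖) ^ 2 :=
          mul_le_mul_of_nonneg_left (h1.trans h2) (by positivity)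
        linarith
      have a2 : C * (1 + k * ‖s‖) ^ 2 ≤ C * ((1 + k) ^ 2 * (1 + ‖s‖) ^ 2) :=
        mul_le_mul_of_nonneg_left h5 hC
      nlinarith

end construction

/-- For every real `d ≥ 2` there is an entire function of degree `d`, lying in `𝒜^#` and in the
extended Selberg class `𝒮^#`, whose Dirichlet series has real coefficients. -/
theorem exists_member (d : ℝ) (hd : 2 ≤ d) :
    ∃ F : ℂ → ℂ, MemASharp F d ∧ MemSSharp F d ∧ Differentiable ℂ F ∧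
      ∃ a : ℕ → ℝ, ∀ s : ℂ, 1 < s.re →
        LSeriesSummable (fun n => (a n : ℂ)) s ∧ F s = LSeries (fun n => (a n : ℂ)) s := by
  set k : ℝ := d / 2 with hkd
  have hk1 : 1 ≤ k := by rw [hkd]; linarith
  have hk : 0 < k := by linarith
  obtain ⟨D⟩ := exists_data hk1
  have hdiff := diff_Fs D hk
  have han : ∀ z, AnalyticAt ℂ (Fs D) z := fun z => hdiff.analyticAt z
  obtain ⟨z₀, hz₀⟩ := nonzero_Fs D hk
  refine ⟨Fs D, ⟨fun z => (han z).meromorphicAt, ⟨z₀, han z₀, hz₀⟩, ?_, ?_, ?_⟩,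
    ⟨⟨z₀, han z₀, hz₀⟩, ?_, ?_, ?_⟩, hdiff, D.a, fun s hs => series_Fs D hk hs⟩
  · exact ⟨fun n => (D.a n : ℂ), 1, fun s hs => series_Fs D hk hs⟩
  · refine ⟨1, one_ne_zero, Fs D, hdiff, fun s _ => by simp, fun σ₁ σ₂ => strip_Fs D hk σ₁ σ₂⟩
  · refine ⟨(10:ℝ) ^ k, -1, 1, 0, fun _ => k, fun _ => 0, Fin.elim0, Fin.elim0, by positivity,
      by simp, fun _ => hk, fun j => j.elim0, ?_, feq_Fs D hk⟩
    simp [hkd]
    ring
  · exact ⟨fun n => (D.a n : ℂ), fun s hs => series_Fs D hk hs⟩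
  · obtain ⟨C, ρ, h⟩ := order_Fs D hk
    exact ⟨0, Fs D, hdiff, fun s _ => ⟨han s, by simp⟩, C, ρ, h⟩
  · refine ⟨(10:ℝ) ^ k, -1, 1, fun _ => k, fun _ => 0, by positivity,
      by simp, fun _ => hk, fun j => by simp, ?_, feq_Fs D hk⟩
    simp [hkd]
    ring

/-- **Main result.** Every real `d ≥ 2` is the degree of an element of `𝒜^#` (which even lies in the
extended Selberg class and is entire with real coefficients); hence the statement of Q1 (`𝒜^#_d = ∅`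
for every real `d ≥ 0` that is not an integer) is false, and its negated form (a non-integer `d > 2`
with `𝒜^#_d ≠ ∅`) is true. -/
theorem result :
    (∀ d : ℝ, 2 ≤ d → ∃ F : ℂ → ℂ, MemASharp F d ∧ MemSSharp F d ∧ Differentiable ℂ F ∧
      ∃ a : ℕ → ℝ, ∀ s : ℂ, 1 < s.re →
        LSeriesSummable (fun n => (a n : ℂ)) s ∧ F s = LSeries (fun n => (a n : ℂ)) s) ∧
    ¬ (∀ d : ℝ, 0 ≤ d → (∀ n : ℤ, d ≠ n) → ¬ ∃ F : ℂ → ℂ, MemASharp F d) := by
  refine ⟨exists_member, fun h => ?_⟩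
  obtain ⟨F, hF, -⟩ := exists_member (5/2) (by norm_num)
  refine h (5/2) (by norm_num) (fun n hn => ?_) ⟨F, hF⟩
  have h1 : (5:ℝ) = ((2 * n : ℤ) : ℝ) := by push_cast; linarith
  have h2 : (5:ℤ) = 2 * n := by exact_mod_cast h1
  omega

end Pool.Agent.Results.MP_bac04d_nt.AllDegrees
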